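import Mathlib

/-!
Elementary facts on right-angled Artin groups: signed generators and squares.
-/

set_option autoImplicit false

namespace Pool.Agent.V1127.RC

/-- the relators -/
def Rl {n : ℕ} (Γ : SimpleGraph (Fin n)) : Set (FreeGroup (Fin n)) :=
  {r | ∃ i j : Fin n, Γ.Adj i j ∧
        r = FreeGroup.of i * FreeGroup.of j * (FreeGroup.of i)⁻¹ * (FreeGroup.of j)⁻¹}

variable {n : ℕ} {Γ : SimpleGraph (Fin n)}

/-- signed generators -/
def eps (Γ : SimpleGraph (Fin n)) (p : Fin n × Bool) : PresentedGroup (Rl Γ) :=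
  if p.2 = true then PresentedGroup.of p.1 else (PresentedGroup.of p.1)⁻¹

/-- signs -/
def sgn (s : Bool) : ℤ := if s = true then 1 else -1

/-- a map on generators gives a homomorphism if adjacent generators are sent to commuting elements -/
def toG {K : Type} [Group K] (φ : Fin n → K) (h : ∀ i j, Γ.Adj i j → φ i * φ j = φ j * φ i) :
    PresentedGroup (Rl Γ) →* K :=
  PresentedGroup.toGroup (f := φ) (by
    rintro _ ⟨i, j, hij, rfl⟩
    simp only [map_mul, map_inv, FreeGroup.lift_apply_of]
    rw [h i j hij]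
    group)

theorem toG_of {K : Type} [Group K] (φ : Fin n → K) (h : ∀ i j, Γ.Adj i j → φ i * φ j = φ j * φ i)
    (i : Fin n) : toG φ h (PresentedGroup.of i) = φ i := by
  unfold toG
  exact PresentedGroup.toGroup.of _

/-- the exponent sum of a generator -/
def chi (Γ : SimpleGraph (Fin n)) (i : Fin n) : PresentedGroup (Rl Γ) →* Multiplicative ℤ :=
  toG (fun k => Multiplicative.ofAdd (if k = i then 1 else 0)) (fun _ _ _ => mul_comm _ _)

theorem chi_eps (i : Fin n) (p : Fin n × Bool) :
    chi Γ i (eps Γ p) = Multiplicative.ofAdd (if p.1 = i then sgn p.2 else 0) := by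
  obtain ⟨k, s⟩ := p
  unfold eps chi sgn
  cases s
  · simp only [Bool.false_eq_true, if_false, map_inv, toG_of]
    by_cases h : k = i
    · simp [h]
    · simp [h]
  · simp only [if_true, toG_of]

theorem chi_two (i : Fin n) {p q r s : Fin n × Bool} (h : eps Γ p * eps Γ q = eps Γ r * eps Γ s) :
    ((if p.1 = i then sgn p.2 else 0) + (if q.1 = i then sgn q.2 else 0) : ℤ) =
      (if r.1 = i then sgn r.2 else 0) + (if s.1 = i then sgn s.2 else 0) := by
  have := congrArg (chi Γ i) h
  simp only [map_mul, chi_eps, ← ofAdd_add] at this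
  exact Multiplicative.ofAdd.injective this

theorem sgn_cases (s : Bool) : sgn s = 1 ∨ sgn s = -1 := by
  cases s <;> simp [sgn]

theorem sgn_inj {s t : Bool} (h : sgn s = sgn t) : s = t := by
  revert h
  cases s <;> cases t <;> simp [sgn]

theorem sgn_ne {s t : Bool} (h : s ≠ t) : sgn t = - sgn s := by
  revert h
  cases s <;> cases t <;> simp [sgn]

theorem eps_not (k : Fin n) (s : Bool) : eps Γ (k, s) * eps Γ (k, !s) = 1 := by
  cases s <;> simp [eps]

theorem eps_inj {p q : Fin n × Bool} (h : eps Γ p = eps Γ q) : p = q := by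
  have h1 := congrArg (chi Γ p.1) h
  rw [chi_eps, chi_eps] at h1
  have h2 := Multiplicative.ofAdd.injective h1
  rw [if_pos rfl] at h2
  by_cases hq : q.1 = p.1
  · rw [if_pos hq] at h2
    exact Prod.ext hq.symm (sgn_inj h2)
  · rw [if_neg hq] at h2
    rcases sgn_cases p.2 with h3 | h3 <;> rw [h3] at h2 <;> simp at h2

/-- the labels of opposite sides of a square agree -/
theorem square {X Y X' Y' : Fin n × Bool} (h : eps Γ X * eps Γ Y' = eps Γ Y * eps Γ X')
    (h1 : X ≠ Y) (h2 : eps Γ X * eps Γ Y' ≠ 1) : X = X' ∧ Y = Y' ∧ X.1 ≠ Y.1 := by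
  have hx := chi_two X.1 h
  have hy := chi_two Y.1 h
  simp only [if_true] at hx hy
  have key : X.1 ≠ Y.1 ∧ Y'.1 ≠ X.1 ∧ X = X' := by
    by_cases c1 : Y'.1 = X.1
    · exfalso
      have c2 : Y'.2 = X.2 := by
        by_contra c3
        apply h2
        have c4 : Y' = (X.1, !X.2) := Prod.ext c1 (by
          show Y'.2 = !X.2
          revert c3
          cases Y'.2 <;> cases X.2 <;> simp)
        have := eps_not (Γ := Γ) X.1 X.2
        rw [c4]
        exact this
      rw [if_pos c1, c2] at hx
      by_cases c3 : Y.1 = X.1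
      · rw [if_pos c3] at hx
        have c4 : X.2 ≠ Y.2 := fun c5 => h1 (Prod.ext c3.symm c5)
        rw [sgn_ne c4] at hx
        by_cases c6 : X'.1 = X.1
        · rw [if_pos c6] at hx
          rcases sgn_cases X.2 with h3 | h3 <;> rcases sgn_cases X'.2 with h4 | h4 <;>
            rw [h3, h4] at hx <;> norm_num at hx
        · rw [if_neg c6] at hx
          rcases sgn_cases X.2 with h3 | h3 <;> rw [h3] at hx <;> norm_num at hx
      · rw [if_neg c3] at hx
        by_cases c6 : X'.1 = X.1
        · rw [if_pos c6] at hx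
          rcases sgn_cases X.2 with h3 | h3 <;> rcases sgn_cases X'.2 with h4 | h4 <;>
            rw [h3, h4] at hx <;> norm_num at hx
        · rw [if_neg c6] at hx
          rcases sgn_cases X.2 with h3 | h3 <;> rw [h3] at hx <;> norm_num at hx
    · rw [if_neg c1] at hx
      by_cases c3 : Y.1 = X.1
      · exfalso
        rw [if_pos c3] at hx
        have c4 : X.2 ≠ Y.2 := fun c5 => h1 (Prod.ext c3.symm c5)
        rw [sgn_ne c4] at hx
        by_cases c6 : X'.1 = X.1
        · rw [if_pos c6] at hx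
          rcases sgn_cases X.2 with h3 | h3 <;> rcases sgn_cases X'.2 with h4 | h4 <;>
            rw [h3, h4] at hx <;> norm_num at hx
        · rw [if_neg c6] at hx
          rcases sgn_cases X.2 with h3 | h3 <;> rw [h3] at hx <;> norm_num at hx
      · rw [if_neg c3] at hx
        by_cases c6 : X'.1 = X.1
        · rw [if_pos c6] at hx
          refine ⟨fun c => c3 c.symm, c1, Prod.ext c6.symm (sgn_inj ?_)⟩
          linarith
        · rw [if_neg c6] at hx
          rcases sgn_cases X.2 with h3 | h3 <;> rw [h3] at hx <;> norm_num at hx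
  obtain ⟨k1, k2, k3⟩ := key
  refine ⟨k3, ?_, k1⟩
  rw [if_neg k1, ← k3, if_neg k1] at hy
  by_cases c1 : Y'.1 = Y.1
  · rw [if_pos c1] at hy
    refine Prod.ext c1.symm (sgn_inj ?_)
    linarith
  · rw [if_neg c1] at hy
    rcases sgn_cases Y.2 with h3 | h3 <;> rw [h3] at hy <;> norm_num at hy

theorem comm_of_adj {i j : Fin n} (h : Γ.Adj i j) :
    (PresentedGroup.of i : PresentedGroup (Rl Γ)) * PresentedGroup.of j =
      PresentedGroup.of j * PresentedGroup.of i := by
  have h1 : (PresentedGroup.mk (Rl Γ)) (FreeGroup.of i * FreeGroup.of j * (FreeGroup.of i)⁻¹ *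
      (FreeGroup.of j)⁻¹) = 1 := by
    apply PresentedGroup.mk_eq_one_iff.mpr
    exact Subgroup.subset_normalClosure ⟨i, j, h, rfl⟩
  simp only [map_mul, map_inv] at h1
  have h2 : (PresentedGroup.of i : PresentedGroup (Rl Γ)) * PresentedGroup.of j *
      (PresentedGroup.of i)⁻¹ * (PresentedGroup.of j)⁻¹ = 1 := h1
  have h3 := mul_inv_eq_one.mp h2
  exact mul_inv_eq_iff_eq_mul.mp h3

theorem eps_comm {p q : Fin n × Bool} (h : Γ.Adj p.1 q.1) :
    eps Γ p * eps Γ q = eps Γ q * eps Γ p := by
  have h1 : Commute (PresentedGroup.of p.1 : PresentedGroup (Rl Γ)) (PresentedGroup.of q.1) :=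
    comm_of_adj h
  show Commute (eps Γ p) (eps Γ q)
  unfold eps
  split_ifs
  · exact h1
  · exact h1.inv_right
  · exact h1.inv_left
  · exact h1.inv_inv

theorem adj_of_comm {p q : Fin n × Bool} (h : eps Γ p * eps Γ q = eps Γ q * eps Γ p)
    (hne : p.1 ≠ q.1) : Γ.Adj p.1 q.1 := by
  have h1 : Commute (eps Γ p) (eps Γ q) := h
  have h2 : Commute (PresentedGroup.of p.1 : PresentedGroup (Rl Γ)) (PresentedGroup.of q.1) := by
    unfold eps at h1
    split_ifs at h1
    · exact h1
    · exact Commute.inv_right_iff.mp h1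
    · exact Commute.inv_left_iff.mp h1
    · exact Commute.inv_inv_iff.mp h1
  by_contra hadj
  let φ : Fin n → Equiv.Perm (Fin 3) := fun k =>
    if k = p.1 then Equiv.swap 0 1 else if k = q.1 then Equiv.swap 1 2 else 1
  have hφ : ∀ i j, Γ.Adj i j → φ i * φ j = φ j * φ i := by
    intro i j hij
    by_cases i1 : i = p.1
    · have j1 : j ≠ p.1 := fun e => hij.ne (i1.trans e.symm)
      have j2 : j ≠ q.1 := fun e => hadj (by rw [← i1, ← e]; exact hij)
      have : φ j = 1 := by simp only [φ, if_neg j1, if_neg j2]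
      rw [this, mul_one, one_mul]
    · by_cases i2 : i = q.1
      · have j1 : j ≠ p.1 := fun e => hadj (by rw [← i2, ← e]; exact hij.symm)
        have j2 : j ≠ q.1 := fun e => hij.ne (i2.trans e.symm)
        have : φ j = 1 := by simp only [φ, if_neg j1, if_neg j2]
        rw [this, mul_one, one_mul]
      · have : φ i = 1 := by simp only [φ, if_neg i1, if_neg i2]
        rw [this, mul_one, one_mul]
  have h3 := congrArg (toG φ hφ) h2.eq
  simp only [map_mul, toG_of] at h3
  have e1 : φ p.1 = Equiv.swap 0 1 := by simp only [φ, if_true]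
  have e2 : φ q.1 = Equiv.swap 1 2 := by simp only [φ, if_neg (Ne.symm hne), if_true]
  rw [e1, e2] at h3
  exact absurd h3 (by decide)

end Pool.Agent.V1127.RC
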