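import Mathlib

/-!
The action of the vertical words on the sequences over the field with three elements.
-/

set_option autoImplicit false

namespace Pool.Agent.V1127.RC

/-- sequences -/
abbrev Sq : Type := ℕ → ZMod 3

/-- the state of the strip starting with `y` over the sequence `z` -/
def st (y : ZMod 3) (z : Sq) : ℕ → ZMod 3
  | 0 => y
  | k + 1 => - st y z k - z k

/-- the new sequence -/
def tr (y : ZMod 3) (z : Sq) : Sq := fun k => z k - st y z k

/-- the state of the inverse strip -/
def sti (y : ZMod 3) (w : Sq) : ℕ → ZMod 3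
  | 0 => y
  | k + 1 => sti y w k - w k

/-- the inverse of `tr` -/
def tri (y : ZMod 3) (w : Sq) : Sq := fun k => w k + sti y w k

theorem three_zero (y : ZMod 3) : y + y + y = 0 := by
  revert y
  decide

theorem st_tri (y : ZMod 3) (w : Sq) (k : ℕ) : st y (tri y w) k = sti y w k := by
  induction k with
  | zero => rfl
  | succ k ih =>
    show - st y (tri y w) k - (w k + sti y w k) = sti y w k - w k
    rw [ih]
    linear_combination - three_zero (sti y w k)

theorem tr_tri (y : ZMod 3) (w : Sq) : tr y (tri y w) = w := by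
  funext k
  show (w k + sti y w k) - st y (tri y w) k = w k
  rw [st_tri]
  ring

/-- the alternating sequence -/
def alt : Sq := fun k => (-1) ^ k

theorem st_one (z : Sq) (k : ℕ) : st 1 z k = st 0 z k + alt k := by
  induction k with
  | zero => simp [st, alt]
  | succ k ih =>
    show - st 1 z k - z k = (- st 0 z k - z k) + (-1) ^ (k + 1)
    rw [ih]
    show - (st 0 z k + (-1) ^ k) - z k = _
    rw [pow_succ]
    ring

theorem tr_one (z : Sq) : tr 1 z = tr 0 z - alt := by
  funext k
  show z k - st 1 z k = (z k - st 0 z k) - alt k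
  rw [st_one]
  ring

theorem st_add (z w : Sq) (k : ℕ) : st 0 (z + w) k = st 0 z k + st 0 w k := by
  induction k with
  | zero => simp [st]
  | succ k ih =>
    show - st 0 (z + w) k - (z k + w k) = (- st 0 z k - z k) + (- st 0 w k - w k)
    rw [ih]
    ring

theorem tr_add (z w : Sq) : tr 0 (z + w) = tr 0 z + tr 0 w := by
  funext k
  show (z k + w k) - st 0 (z + w) k = (z k - st 0 z k) + (w k - st 0 w k)
  rw [st_add]
  ring

theorem tr_sub (z w : Sq) : tr 0 (z - w) = tr 0 z - tr 0 w := by
  have h := tr_add (z - w) w
  rw [sub_add_cancel] at h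
  rw [h, add_sub_cancel_right]

/-- the translations -/
def dd : ℕ → Sq
  | 0 => alt
  | k + 1 => tr 0 (dd k) - dd k

theorem dd_succ_zero (k : ℕ) : dd (k + 1) 0 = 0 := by
  show (dd k 0 - st 0 (dd k) 0) - dd k 0 = 0
  simp [st]

theorem dd_succ_succ (k m : ℕ) : dd (k + 1) (m + 1) = dd k m - dd (k + 1) m := by
  show (dd k (m + 1) - (- st 0 (dd k) m - dd k m)) - dd k (m + 1) =
    dd k m - ((dd k m - st 0 (dd k) m) - dd k m)
  ring

theorem dd_lt (k m : ℕ) (h : m < k) : dd k m = 0 := by
  induction k generalizing m with
  | zero => omega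
  | succ k ih =>
    induction m with
    | zero => exact dd_succ_zero k
    | succ m ihm =>
      rw [dd_succ_succ, ih m (by omega), ihm (by omega), sub_zero]

theorem dd_self (k : ℕ) : dd k k = 1 := by
  induction k with
  | zero => simp [dd, alt]
  | succ k ih =>
    rw [dd_succ_succ, ih, dd_lt (k + 1) k (Nat.lt_succ_self k), sub_zero]

end Pool.Agent.V1127.RC
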