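import Pool.Agent.V1127.RC.Sys
import Pool.Agent.V1127.RC.Raag
import Pool.Agent.V1127.RC.Seq

/-!
The universal cover of the square complex has no convex embedding in the universal cover of the
Salvetti complex of a finite graph.
-/

set_option autoImplicit false

namespace Pool.Agent.V1127.RC

open Pool.Agent.W387 SqSys

/-- the square system -/
abbrev S : SqSys Dt := Dt.sys

theorem gn_inj {x y : Dt} (h : S.gn x = S.gn y) : x = y := by
  have h1 : evL (S := S) [x] = evL [y] := by simpa using h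
  exact E_single (E_of_evL_eq (red_single x) (red_single y) h1)

theorem gn_mul_ne {c x : Dt} (h : c ≠ Dt.inv x) : S.gn c * S.gn x ≠ 1 := by
  intro h1
  apply h
  apply gn_inj
  have h2 := gn_inv (S := S) x
  rw [show Dt.inv x = S.inv x from rfl, h2]
  exact eq_inv_of_mul_eq_one_left h1

theorem len_two {c x : Dt} (h : S.gn c * S.gn x ≠ 1) : len (S.gn c * S.gn x) = 2 := by
  rcases len_gn_mul c (S.gn x) with h1 | h1
  · rw [h1, len_gn]
  · rw [len_gn] at h1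
    exact absurd (len_eq_zero (by omega)) h

theorem exists_sq {c d x y : Dt} (h : S.gn c * S.gn x = S.gn d * S.gn y)
    (h1 : S.gn c * S.gn x ≠ 1) (hxy : x ≠ y) : S.sq c d = some (x, y) := by
  have r1 : S.Red [c, x] := by
    apply red_of_len
    simpa using len_two h1
  have r2 : S.Red [d, y] := by
    apply red_of_len
    have := len_two (c := d) (x := y) (by rw [← h]; exact h1)
    simpa using this
  have h2 : evL (S := S) [c, x] = evL [d, y] := by simpa using h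
  have h3 := E_of_evL_eq r1 r2 h2
  rcases key _ _ _ _ _ rfl h3 with ⟨_, h4⟩ | ⟨p, e, f, h4, h5, h6⟩
  · exact absurd (E_single h4) hxy
  · have h7 := E.length h5
    have h8 : p = [] := by
      apply List.eq_nil_of_length_eq_zero
      simp only [List.length_cons, List.length_nil] at h7
      omega
    subst h8
    rw [h4, E_single h5, E_single h6]

/-- horizontal generators -/
def gA (x : ZMod 3) : S.Grp := S.gn (Dt.a x true)

/-- vertical generators -/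
def gB (y : ZMod 3) : S.Grp := S.gn (Dt.b y true)

/-- the last generator -/
def gG : S.Grp := S.gn (Dt.g true)

theorem sq_ab' : ∀ y z : ZMod 3,
    Dt.sq (Dt.b (- y - z : ZMod 3) true) (Dt.a (z - y : ZMod 3) true) =
      some (Dt.a z true, Dt.b y true) := by
  decide +kernel

theorem rel_ab (y z : ZMod 3) : gB (- y - z) * gA z = gA (z - y) * gB y :=
  gn_sq (S := S) (sq_ab' y z)

theorem rel_ag : gG * gA 0 = gA 0 * gG := gn_sq (S := S) Dt.sq_ag

/-- parity -/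
def par {n : ℕ} (Γ : SimpleGraph (Fin n)) : PresentedGroup (Rl Γ) →* Multiplicative (ZMod 2) :=
  toG (fun _ => Multiplicative.ofAdd 1) (fun _ _ _ => mul_comm _ _)

theorem par_eps {n : ℕ} (Γ : SimpleGraph (Fin n)) (p : Fin n × Bool) :
    par Γ (eps Γ p) = Multiplicative.ofAdd 1 := by
  unfold par eps
  split_ifs
  · rw [toG_of]
  · rw [map_inv, toG_of]
    decide

theorem eps_ne_one {n : ℕ} {Γ : SimpleGraph (Fin n)} (p : Fin n × Bool) : eps Γ p ≠ 1 := by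
  intro h
  have h1 := congrArg (par Γ) h
  rw [par_eps, map_one (par Γ)] at h1
  exact absurd h1 (by decide)

theorem eps_mul_ne {n : ℕ} {Γ : SimpleGraph (Fin n)} {p q : Fin n × Bool} (h : p.1 ≠ q.1) :
    eps Γ p * eps Γ q ≠ 1 := by
  intro h0
  have h1 := congrArg (chi Γ p.1) h0
  rw [map_mul, chi_eps, chi_eps, map_one, ← ofAdd_add, if_pos rfl, if_neg (Ne.symm h)] at h1
  have h2 := Multiplicative.ofAdd.injective (h1.trans (ofAdd_zero).symm)
  rcases sgn_cases p.2 with h3 | h3 <;> rw [h3] at h2 <;> norm_num at h2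

/-- a convex embedding -/
structure Emb (n : ℕ) (Γ : SimpleGraph (Fin n)) (C : SimpleGraph (PresentedGroup (Rl Γ))) where
  /-- the graph is the Cayley graph -/
  hC : ∀ g h : PresentedGroup (Rl Γ), C.Adj g h ↔
    (g ≠ h ∧ ∃ i : Fin n, h = g * PresentedGroup.of i ∨ g = h * PresentedGroup.of i)
  /-- the embedding -/
  f : S.Cay ↪g C
  /-- convexity -/
  hf : ∀ a b c : PresentedGroup (Rl Γ), a ∈ Set.range f → b ∈ Set.range f →
    C.dist a c + C.dist c b = C.dist a b → c ∈ Set.range f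

namespace Emb

variable {n : ℕ} {Γ : SimpleGraph (Fin n)} {C : SimpleGraph (PresentedGroup (Rl Γ))}
  (E : Emb n Γ C)

include E

theorem adj_eps (g : PresentedGroup (Rl Γ)) (p : Fin n × Bool) : C.Adj g (g * eps Γ p) := by
  rw [E.hC]
  refine ⟨fun h => eps_ne_one p (left_eq_mul.mp h), p.1, ?_⟩
  unfold eps
  split_ifs
  · exact Or.inl rfl
  · right
    rw [inv_mul_cancel_right]

theorem exists_eps {g h : PresentedGroup (Rl Γ)} (ha : C.Adj g h) : ∃ p, h = g * eps Γ p := by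
  rw [E.hC] at ha
  obtain ⟨_, i, h1 | h1⟩ := ha
  · exact ⟨(i, true), by rw [h1]; simp [eps]⟩
  · exact ⟨(i, false), by rw [h1]; simp [eps]⟩

theorem exists_lam (v : S.Grp) (x : Dt) : ∃ p, E.f ⟨S.gn x * v⟩ = E.f ⟨v⟩ * eps Γ p :=
  E.exists_eps (E.f.map_adj_iff.mpr ⟨x, rfl⟩)

omit E in
/-- the label of an edge -/
noncomputable def lam (E : Emb n Γ C) (v : S.Grp) (x : Dt) : Fin n × Bool :=
  (E.exists_lam v x).choose

theorem lam_spec (v : S.Grp) (x : Dt) : E.f ⟨S.gn x * v⟩ = E.f ⟨v⟩ * eps Γ (E.lam v x) :=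
  (E.exists_lam v x).choose_spec

theorem f_inj {v w : S.Grp} (h : E.f ⟨v⟩ = E.f ⟨w⟩) : v = w := by
  have := E.f.injective h
  exact congrArg Vx.g this

theorem sqr (v : S.Grp) {x y c d : Dt} (h : S.gn c * S.gn x = S.gn d * S.gn y)
    (hxy : x ≠ y) (h1 : S.gn c * S.gn x ≠ 1) :
    E.lam v x = E.lam (S.gn y * v) d ∧ E.lam v y = E.lam (S.gn x * v) c ∧
      Γ.Adj (E.lam v x).1 (E.lam v y).1 := by
  have e1 : E.f ⟨S.gn c * (S.gn x * v)⟩ =
      E.f ⟨v⟩ * (eps Γ (E.lam v x) * eps Γ (E.lam (S.gn x * v) c)) := by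
    rw [E.lam_spec, E.lam_spec, mul_assoc]
  have e2 : E.f ⟨S.gn d * (S.gn y * v)⟩ =
      E.f ⟨v⟩ * (eps Γ (E.lam v y) * eps Γ (E.lam (S.gn y * v) d)) := by
    rw [E.lam_spec, E.lam_spec, mul_assoc]
  have e3 : S.gn c * (S.gn x * v) = S.gn d * (S.gn y * v) := by
    rw [← mul_assoc, h, mul_assoc]
  rw [← e3, e1] at e2
  have e4 := mul_left_cancel e2
  have e5 : E.lam v x ≠ E.lam v y := by
    intro e
    have e6 := E.lam_spec v x
    rw [e, ← E.lam_spec v y] at e6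
    exact hxy (gn_inj (mul_right_cancel (E.f_inj e6)))
  have e6 : eps Γ (E.lam v x) * eps Γ (E.lam (S.gn x * v) c) ≠ 1 := by
    intro e
    rw [e, mul_one, ← mul_assoc] at e1
    exact h1 (by simpa using E.f_inj e1)
  obtain ⟨k1, k2, k3⟩ := square e4 e5 e6
  refine ⟨k1, k2, adj_of_comm ?_ k3⟩
  rw [← k1, ← k2] at e4
  exact e4

theorem conv (v : S.Grp) {x y : Dt} (hxy : x ≠ y)
    (h : Γ.Adj (E.lam v x).1 (E.lam v y).1) :
    ∃ c d : Dt, S.gn c * S.gn x = S.gn d * S.gn y ∧ S.gn c * S.gn x ≠ 1 := by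
  have hP := E.lam_spec v x
  have hQ := E.lam_spec v y
  set X := E.lam v x with hX
  set Y := E.lam v y with hY
  set c0 := E.f ⟨v⟩ * eps Γ X * eps Γ Y with hc0
  have hc1 : c0 = E.f ⟨v⟩ * eps Γ Y * eps Γ X := by
    rw [hc0, mul_assoc, mul_assoc, eps_comm h]
  have a1 : C.Adj (E.f ⟨S.gn x * v⟩) c0 := by
    rw [hP, hc0]
    exact E.adj_eps _ _
  have a2 : C.Adj (E.f ⟨S.gn y * v⟩) c0 := by
    rw [hQ, hc1]
    exact E.adj_eps _ _
  have hne : E.f ⟨S.gn x * v⟩ ≠ E.f ⟨S.gn y * v⟩ := fun e =>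
    hxy (gn_inj (mul_right_cancel (E.f_inj e)))
  have hna : ¬ C.Adj (E.f ⟨S.gn x * v⟩) (E.f ⟨S.gn y * v⟩) := by
    intro ha
    obtain ⟨p, hp⟩ := E.exists_eps ha
    rw [hP, hQ] at hp
    have := congrArg (par Γ) hp
    simp only [map_mul, par_eps] at this
    exact absurd (left_eq_mul.mp this) (by decide)
  have d1 : C.dist (E.f ⟨S.gn x * v⟩) c0 = 1 := SimpleGraph.dist_eq_one_iff_adj.mpr a1
  have d2 : C.dist c0 (E.f ⟨S.gn y * v⟩) = 1 := SimpleGraph.dist_eq_one_iff_adj.mpr a2.symm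
  have d3 : C.dist (E.f ⟨S.gn x * v⟩) (E.f ⟨S.gn y * v⟩) = 2 := by
    have w1 : C.dist (E.f ⟨S.gn x * v⟩) (E.f ⟨S.gn y * v⟩) ≤ 2 :=
      SimpleGraph.dist_le (SimpleGraph.Walk.cons a1 (SimpleGraph.Walk.cons a2.symm
        SimpleGraph.Walk.nil))
    have w2 : C.dist (E.f ⟨S.gn x * v⟩) (E.f ⟨S.gn y * v⟩) ≠ 0 := by
      intro e
      have hr : C.Reachable (E.f ⟨S.gn x * v⟩) (E.f ⟨S.gn y * v⟩) :=
        a1.reachable.trans a2.symm.reachable
      exact hne (hr.dist_eq_zero_iff.mp e)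
    have w3 : C.dist (E.f ⟨S.gn x * v⟩) (E.f ⟨S.gn y * v⟩) ≠ 1 := fun e =>
      hna (SimpleGraph.dist_eq_one_iff_adj.mp e)
    omega
  obtain ⟨s, hs⟩ := E.hf _ _ c0 ⟨_, rfl⟩ ⟨_, rfl⟩ (by rw [d1, d2, d3])
  rw [← hs] at a1 a2
  obtain ⟨c, hc⟩ := E.f.map_adj_iff.mp a1
  obtain ⟨d, hd⟩ := E.f.map_adj_iff.mp a2
  have hc' : s.g = S.gn c * (S.gn x * v) := hc
  have hd' : s.g = S.gn d * (S.gn y * v) := hd
  refine ⟨c, d, ?_, ?_⟩
  · rw [hc', ← mul_assoc, ← mul_assoc] at hd'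
    exact mul_right_cancel hd'
  · intro e
    rw [← mul_assoc, e, one_mul] at hc'
    have hs' : s = ⟨v⟩ := Vx.ext hc'
    rw [hs', hc0, mul_assoc] at hs
    exact eps_mul_ne h.ne (left_eq_mul.mp hs)

/-- transport of horizontal edges -/
def P (β : S.Grp) (z : ZMod 3) (β' : S.Grp) (z' : ZMod 3) : Prop :=
  gA z' * β = β' * gA z ∧ ∀ v, E.lam v (Dt.a z true) = E.lam (β * v) (Dt.a z' true)

theorem P_gen (y z : ZMod 3) : E.P (gB y) z (gB (- y - z)) (z - y) := by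
  refine ⟨(rel_ab y z).symm, fun v => ?_⟩
  exact (E.sqr v (x := Dt.a z true) (y := Dt.b y true) (c := Dt.b (- y - z : ZMod 3) true)
    (d := Dt.a (z - y : ZMod 3) true) (rel_ab y z) (by simp)
    (gn_mul_ne (by simp [Dt.inv]))).1

variable {E}

theorem P_comp {β β' δ δ' : S.Grp} {z z' z'' : ZMod 3} (h1 : E.P β z β' z')
    (h2 : E.P δ z' δ' z'') : E.P (δ * β) z (δ' * β') z'' := by
  refine ⟨?_, fun v => ?_⟩
  · rw [← mul_assoc, h2.1, mul_assoc, h1.1, mul_assoc]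
  · rw [h1.2, h2.2, mul_assoc]

theorem P_inv {β β' : S.Grp} {z z' : ZMod 3} (h : E.P β z β' z') : E.P β⁻¹ z' β'⁻¹ z := by
  refine ⟨?_, fun v => ?_⟩
  · rw [mul_inv_eq_iff_eq_mul, mul_assoc, h.1, inv_mul_cancel_left]
  · rw [h.2, mul_inv_cancel_left]

variable (E)

/-- transport of horizontal rays -/
def Tr (β : S.Grp) (Z Z' : Sq) : Prop :=
  ∃ B : ℕ → S.Grp, B 0 = β ∧ ∀ k, E.P (B k) (Z k) (B (k + 1)) (Z' k)

theorem Tr_gen (y : ZMod 3) (Z : Sq) : E.Tr (gB y) Z (tr y Z) :=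
  ⟨fun k => gB (st y Z k), rfl, fun k => E.P_gen _ _⟩

variable {E}

theorem Tr_comp {β δ : S.Grp} {Z Z' Z'' : Sq} (h1 : E.Tr β Z Z') (h2 : E.Tr δ Z' Z'') :
    E.Tr (δ * β) Z Z'' := by
  obtain ⟨B, hB, hB2⟩ := h1
  obtain ⟨D, hD, hD2⟩ := h2
  exact ⟨fun k => D k * B k, by simp only [hB, hD], fun k => P_comp (hB2 k) (hD2 k)⟩

theorem Tr_inv {β : S.Grp} {Z Z' : Sq} (h : E.Tr β Z Z') : E.Tr β⁻¹ Z' Z := by
  obtain ⟨B, hB, hB2⟩ := h
  exact ⟨fun k => (B k)⁻¹, by simp only [hB], fun k => P_inv (hB2 k)⟩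

/-- the elements that act as translations -/
def DD : ℕ → S.Grp
  | 0 => gB 0 * (gB 1)⁻¹
  | k + 1 => gB 0 * (DD k * ((gB 0)⁻¹ * (DD k)⁻¹))

theorem Tr_DD (k : ℕ) (Z : Sq) : E.Tr (DD k) Z (Z + dd k) := by
  induction k generalizing Z with
  | zero =>
    have h1 := E.Tr_gen 1 (tri 1 Z)
    rw [tr_tri] at h1
    have h2 := E.Tr_gen 0 (tri 1 Z)
    have h3 : tr 0 (tri 1 Z) = Z + alt := by
      have := tr_one (tri 1 Z)
      rw [tr_tri] at this
      exact sub_eq_iff_eq_add.mp this.symm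
    rw [h3] at h2
    exact Tr_comp (Tr_inv h1) h2
  | succ k ih =>
    have h1 := ih (Z - dd k)
    rw [sub_add_cancel] at h1
    have h2 := E.Tr_gen 0 (tri 0 (Z - dd k))
    rw [tr_tri] at h2
    have h3 := ih (tri 0 (Z - dd k))
    have h4 := E.Tr_gen 0 (tri 0 (Z - dd k) + dd k)
    rw [tr_add, tr_tri] at h4
    have h5 : Z - dd k + tr 0 (dd k) = Z + dd (k + 1) := by
      show Z - dd k + tr 0 (dd k) = Z + (tr 0 (dd k) - dd k)
      abel
    rw [h5] at h4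
    exact Tr_comp (Tr_comp (Tr_comp (Tr_inv h1) (Tr_inv h2)) h3) h4

variable (E)

theorem lam_g (v : S.Grp) : E.lam v (Dt.g true) = E.lam (gA 0 * v) (Dt.g true) ∧
    Γ.Adj (E.lam v (Dt.a (0 : ZMod 3) true)).1 (E.lam v (Dt.g true)).1 :=
  (E.sqr v (x := Dt.a (0 : ZMod 3) true) (y := Dt.g true) (c := Dt.g true)
    (d := Dt.a (0 : ZMod 3) true) rel_ag (by simp) (gn_mul_ne (by simp [Dt.inv]))).2

theorem false : False := by
  obtain ⟨i0, j0, hne, heq⟩ := Finite.exists_ne_map_eq_of_infinite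
    (fun k : ℕ => E.lam (gA 0 ^ k) (Dt.a (0 : ZMod 3) true))
  obtain ⟨i, j, hij, h⟩ : ∃ i j : ℕ, i < j ∧ E.lam (gA 0 ^ i) (Dt.a (0 : ZMod 3) true) =
      E.lam (gA 0 ^ j) (Dt.a (0 : ZMod 3) true) := by
    rcases lt_or_gt_of_ne hne with h | h
    · exact ⟨i0, j0, h, heq⟩
    · exact ⟨j0, i0, h, heq.symm⟩
  obtain ⟨B, _, hB⟩ := Tr_DD (E := E) j 0
  rw [zero_add] at hB
  have hlt : ∀ m, m < j → E.P (B m) 0 (B (m + 1)) 0 := by
    intro m hm
    have := hB m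
    rw [dd_lt j m hm] at this
    exact this
  have hj : E.P (B j) 0 (B (j + 1)) 1 := by
    have := hB j
    rw [dd_self] at this
    exact this
  have hw : ∀ m, m < j → B (m + 1) * gA 0 ^ (m + 1) = gA 0 * (B m * gA 0 ^ m) := by
    intro m hm
    rw [pow_succ', ← mul_assoc, ← (hlt m hm).1, mul_assoc]
  have hg : ∀ m, i ≤ m → m ≤ j → E.lam (B i * gA 0 ^ i) (Dt.g true) =
      E.lam (B m * gA 0 ^ m) (Dt.g true) := by
    intro m hm
    induction m, hm using Nat.le_induction with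
    | base => exact fun _ => rfl
    | succ m hm ih =>
      intro hmj
      rw [ih (by omega), hw m (by omega)]
      exact (E.lam_g _).1
  have h1 := (E.lam_g (B i * gA 0 ^ i)).2
  rw [hg j hij.le le_rfl, ← (hlt i hij).2, h, hj.2] at h1
  obtain ⟨c, d, h2, h3⟩ := E.conv _ (by simp) h1
  exact Dt.no_ag c d (exists_sq h2 h3 (by simp))

end Emb

end Pool.Agent.V1127.RC
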