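import Pool.Agent.W387.SqMedian

/-!
A one-vertex square complex: darts `a x`, `b y` with `x, y` in the field with three elements, and `g`.
Squares: `a x * b y = b (y - x) * a (x + y)` and `a 0 * g = g * a 0`.
-/

set_option autoImplicit false

namespace Pool.Agent.V1127.RC

open Pool.Agent.W387

/-- darts; the boolean is `true` for the positive direction -/
inductive Dt : Type
  | a (x : Fin 3) (s : Bool)
  | b (y : Fin 3) (s : Bool)
  | g (s : Bool)
  deriving DecidableEq, Fintype

namespace Dt

/-- inverse of a dart -/
def inv : Dt → Dt
  | a x s => a x (!s)
  | b y s => b y (!s)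
  | g s => g (!s)

/-- squares with a first dart of type `a` and a second dart of type `b` -/
def sqab (x : Fin 3) (s : Bool) (y : Fin 3) (t : Bool) : Dt × Dt :=
  match s, t with
  | true, true => (b (y + x) true, a (x + x + y) true)
  | false, true => (b (y + (x + x)) true, a (x + y) false)
  | true, false => (b (x + x + (y + y)) false, a (y + (x + x)) true)
  | false, false => (b (y + y + (x + x)) false, a (x + (y + y)) false)

/-- squares -/
def sq : Dt → Dt → Option (Dt × Dt)
  | a x s, b y t => some (sqab x s y t)
  | b y t, a x s => some ((sqab x s y t).2, (sqab x s y t).1)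
  | a x s, g t => if x = 0 then some (g t, a 0 s) else none
  | g t, a x s => if x = 0 then some (a 0 s, g t) else none
  | _, _ => none

/-- colours -/
def col : Dt → Bool
  | a _ _ => false
  | b _ _ => true
  | g _ => true

theorem inv_inv : ∀ x : Dt, inv (inv x) = x := by decide +kernel

theorem symm_aux : ∀ x y : Dt, (match sq x y with
    | none => true
    | some r => decide (sq y x = some (r.2, r.1))) = true := by decide +kernel

theorem rot_aux : ∀ x y : Dt, (match sq x y with
    | none => true
    | some r => decide (sq (inv x) r.1 = some (y, inv r.2))) = true := by decide +kernel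

theorem col_aux : ∀ x y : Dt, (match sq x y with
    | none => true
    | some _ => decide (col x ≠ col y)) = true := by decide +kernel

theorem sq_symm {x y p q : Dt} (h : sq x y = some (p, q)) : sq y x = some (q, p) := by
  have h1 := symm_aux x y
  rw [h] at h1
  simpa using h1

theorem sq_rot {x y p q : Dt} (h : sq x y = some (p, q)) : sq (inv x) p = some (y, inv q) := by
  have h1 := rot_aux x y
  rw [h] at h1
  simpa using h1

theorem sq_col {x y : Dt} {r : Dt × Dt} (h : sq x y = some r) : col x ≠ col y := by
  have h1 := col_aux x y
  rw [h] at h1
  simpa using h1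

theorem no_tri {x y z : Dt} {r s u : Dt × Dt} (h1 : sq x y = some r) (h2 : sq y z = some s)
    (h3 : sq x z = some u) : False := by
  have k1 := sq_col h1
  have k2 := sq_col h2
  have k3 := sq_col h3
  revert k1 k2 k3
  cases col x <;> cases col y <;> cases col z <;> simp

/-- the square system -/
def sys : SqSys Dt where
  inv := inv
  inv_inv := inv_inv
  sq := sq
  symm := sq_symm
  rot := sq_rot
  irrefl := by decide +kernel
  cube := fun h1 h2 h3 => (no_tri h1 h2 h3).elim

/-- the squares `a x * b y = b (y - x) * a (x + y)`, written from the other corner: from a vertex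
first `b y` and then `a (z - y)`, or first `a z` and then `b (-y-z)` -/
theorem sq_ab : ∀ y z : Fin 3,
    sq (b (y + y + (z + z)) true) (a (z + (y + y)) true) = some (a z true, b y true) := by
  decide +kernel

theorem sq_ag : sq (g true) (a 0 true) = some (a 0 true, g true) := by decide +kernel

theorem no_ag : ∀ c d : Dt, sq c d ≠ some (a 1 true, g true) := by decide +kernel

end Dt

end Pool.Agent.V1127.RC
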